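import Mathlib

set_option autoImplicit false

/-!
# A tetrahedron whose longest edge has no endpoint of largest curvature

The vertices are `a = (10, 0, 0)`, `b = (0, 10, 0)`, `c = (0, 0, -4)`, `d = (0, 0, 9)`. The edge `ab`
is the unique longest edge, and the curvature at `a` and at `b` is smaller than the one at `d`:
each of the three face angles at `d` is smaller than a corresponding face angle at `a`.
-/

namespace Pool.Agent.Results.MP_ba4d4a_gt.LongestEdge

open EuclideanGeometry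

/-- Points of Euclidean 3-space. -/
abbrev E3 := EuclideanSpace ℝ (Fin 3)

/-- The curvature (angle deficit) of the tetrahedron with vertices `T 0, T 1, T 2, T 3` at the
vertex `T v`: `2π` minus the sum of the face angles at `T v`. -/
noncomputable def curvature (T : Fin 4 → E3) (v : Fin 4) : ℝ :=
  2 * Real.pi - ∑ p ∈ (Finset.univ : Finset (Fin 4 × Fin 4)).filter
    (fun p => p.1 < p.2 ∧ p.1 ≠ v ∧ p.2 ≠ v), ∠ (T p.1) (T v) (T p.2)

/-- The vertices of the tetrahedron. -/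
noncomputable def Tet : Fin 4 → E3 := ![!₂[10, 0, 0], !₂[0, 10, 0], !₂[0, 0, -4], !₂[0, 0, 9]]

lemma affIndep : AffineIndependent ℝ Tet := by
  rw [affineIndependent_iff_linearIndependent_vsub ℝ _ (0 : Fin 4)]
  have hinj : LinearIndependent ℝ (fun i : Fin 3 => Tet i.succ -ᵥ Tet 0) := by
    rw [Fintype.linearIndependent_iff]
    intro g hg
    have h0 := congrFun (congrArg (fun x : E3 => x.ofLp) hg) 0
    have h1 := congrFun (congrArg (fun x : E3 => x.ofLp) hg) 1
    have h2 := congrFun (congrArg (fun x : E3 => x.ofLp) hg) 2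
    simp [Fin.sum_univ_three, Tet, vsub_eq_sub] at h0 h1 h2
    intro i
    fin_cases i
    · simp; linarith
    · simp; linarith
    · simp; linarith
  have hb : Function.Bijective (fun i : Fin 3 => (⟨i.succ, Fin.succ_ne_zero i⟩ : {x : Fin 4 // x ≠ 0})) := by
    constructor
    · intro i j hij
      simpa using hij
    · rintro ⟨x, hx⟩
      obtain ⟨i, rfl⟩ := Fin.exists_succ_eq.2 hx
      exact ⟨i, rfl⟩
  rw [← linearIndependent_equiv (Equiv.ofBijective _ hb)]
  exact hinj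

open scoped RealInnerProductSpace in
lemma angle_lt_of {x₁ y₁ x₂ y₂ : E3} {p q m₁ m₂ : ℝ} (h₁ : ⟪x₁, y₁⟫ = p) (h₂ : ⟪x₂, y₂⟫ = q)
    (hp : 0 < p) (hm₁ : 0 < m₁) (hm₂ : 0 < m₂) (hn₁ : ‖x₁‖ ^ 2 * ‖y₁‖ ^ 2 = m₁)
    (hn₂ : ‖x₂‖ ^ 2 * ‖y₂‖ ^ 2 = m₂) (h : q ^ 2 * m₁ < p ^ 2 * m₂) :
    InnerProductGeometry.angle x₁ y₁ < InnerProductGeometry.angle x₂ y₂ := by
  unfold InnerProductGeometry.angle
  have e₁ : (‖x₁‖ * ‖y₁‖) ^ 2 = m₁ := by rw [mul_pow]; exact hn₁
  have e₂ : (‖x₂‖ * ‖y₂‖) ^ 2 = m₂ := by rw [mul_pow]; exact hn₂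
  have p₁ : 0 < ‖x₁‖ * ‖y₁‖ := by
    rcases (mul_nonneg (norm_nonneg x₁) (norm_nonneg y₁)).lt_or_eq with h | h
    · exact h
    · rw [← h] at e₁; norm_num at e₁; linarith
  have p₂ : 0 < ‖x₂‖ * ‖y₂‖ := by
    rcases (mul_nonneg (norm_nonneg x₂) (norm_nonneg y₂)).lt_or_eq with h | h
    · exact h
    · rw [← h] at e₂; norm_num at e₂; linarith
  apply Real.arccos_lt_arccos
  · exact (abs_le.1 (abs_real_inner_div_norm_mul_norm_le_one x₂ y₂)).1
  · rw [h₁, h₂, div_lt_div_iff₀ p₂ p₁]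
    have h3 : (q * (‖x₁‖ * ‖y₁‖)) ^ 2 < (p * (‖x₂‖ * ‖y₂‖)) ^ 2 := by
      rw [mul_pow q, mul_pow p, e₁, e₂]
      exact h
    exact lt_of_pow_lt_pow_left₀ 2 (by positivity) h3
  · exact (abs_le.1 (abs_real_inner_div_norm_mul_norm_le_one x₁ y₁)).2

lemma nsq (x : E3) : ‖x‖ ^ 2 = x 0 ^ 2 + x 1 ^ 2 + x 2 ^ 2 := by
  rw [EuclideanSpace.norm_sq_eq]
  simp [Fin.sum_univ_three]

open scoped RealInnerProductSpace in
lemma inn (x y : E3) : ⟪x, y⟫ = x 0 * y 0 + x 1 * y 1 + x 2 * y 2 := by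
  rw [PiLp.inner_apply]
  simp [Fin.sum_univ_three, mul_comm]

lemma curv (T : Fin 4 → E3) :
    curvature T 0 = 2 * Real.pi - (∠ (T 1) (T 0) (T 2) + ∠ (T 1) (T 0) (T 3) + ∠ (T 2) (T 0) (T 3))
    ∧ curvature T 1
      = 2 * Real.pi - (∠ (T 0) (T 1) (T 2) + ∠ (T 0) (T 1) (T 3) + ∠ (T 2) (T 1) (T 3))
    ∧ curvature T 3
      = 2 * Real.pi - (∠ (T 0) (T 3) (T 1) + ∠ (T 0) (T 3) (T 2) + ∠ (T 1) (T 3) (T 2)) := by
  refine ⟨?_, ?_, ?_⟩
  · unfold curvature
    rw [show (Finset.univ : Finset (Fin 4 × Fin 4)).filter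
      (fun p => p.1 < p.2 ∧ p.1 ≠ 0 ∧ p.2 ≠ 0) = {(1, 2), (1, 3), (2, 3)} by decide]
    rw [Finset.sum_insert (by decide), Finset.sum_insert (by decide), Finset.sum_singleton]
    ring
  · unfold curvature
    rw [show (Finset.univ : Finset (Fin 4 × Fin 4)).filter
      (fun p => p.1 < p.2 ∧ p.1 ≠ 1 ∧ p.2 ≠ 1) = {(0, 2), (0, 3), (2, 3)} by decide]
    rw [Finset.sum_insert (by decide), Finset.sum_insert (by decide), Finset.sum_singleton]
    ring
  · unfold curvature
    rw [show (Finset.univ : Finset (Fin 4 × Fin 4)).filter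
      (fun p => p.1 < p.2 ∧ p.1 ≠ 3 ∧ p.2 ≠ 3) = {(0, 1), (0, 2), (1, 2)} by decide]
    rw [Finset.sum_insert (by decide), Finset.sum_insert (by decide), Finset.sum_singleton]
    ring

/-- There is a (nondegenerate) tetrahedron `T` with a unique longest edge `T 0, T 1`, such that the
curvatures at `T 0` and at `T 1` are both strictly smaller than the curvature at `T 3`. -/
theorem result : ∃ T : Fin 4 → E3, AffineIndependent ℝ T ∧
    (∀ i j : Fin 4, i < j → (i, j) ≠ (0, 1) → dist (T i) (T j) < dist (T 0) (T 1)) ∧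
    curvature T 0 < curvature T 3 ∧ curvature T 1 < curvature T 3 := by
  refine ⟨Tet, affIndep, ?_, ?_, ?_⟩
  · intro i j hij hne
    rw [dist_eq_norm, dist_eq_norm]
    refine lt_of_pow_lt_pow_left₀ 2 (norm_nonneg _) ?_
    rw [nsq, nsq]
    fin_cases i <;> fin_cases j <;> first
      | exact absurd hij (by decide)
      | exact absurd rfl hne
      | (simp [Tet]; norm_num)
  · rw [(curv Tet).1, (curv Tet).2.2]
    have h1 : ∠ (Tet 0) (Tet 3) (Tet 1) < ∠ (Tet 2) (Tet 0) (Tet 3) := by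
      unfold EuclideanGeometry.angle
      refine angle_lt_of (p := 81) (q := 64) (m₁ := 32761) (m₂ := 20996) ?_ ?_ (by norm_num)
        (by norm_num) (by norm_num) ?_ ?_ (by norm_num)
      · rw [inn]; simp [Tet]; norm_num
      · rw [inn]; simp [Tet]; norm_num
      · rw [nsq, nsq]; simp [Tet]; norm_num
      · rw [nsq, nsq]; simp [Tet]; norm_num
    have h2 : ∠ (Tet 0) (Tet 3) (Tet 2) < ∠ (Tet 1) (Tet 0) (Tet 3) := by
      unfold EuclideanGeometry.angle
      refine angle_lt_of (p := 117) (q := 100) (m₁ := 30589) (m₂ := 36200) ?_ ?_ (by norm_num)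
        (by norm_num) (by norm_num) ?_ ?_ (by norm_num)
      · rw [inn]; simp [Tet]; norm_num
      · rw [inn]; simp [Tet]; norm_num
      · rw [nsq, nsq]; simp [Tet]; norm_num
      · rw [nsq, nsq]; simp [Tet]; norm_num
    have h3 : ∠ (Tet 1) (Tet 3) (Tet 2) < ∠ (Tet 1) (Tet 0) (Tet 2) := by
      unfold EuclideanGeometry.angle
      refine angle_lt_of (p := 117) (q := 100) (m₁ := 30589) (m₂ := 23200) ?_ ?_ (by norm_num)
        (by norm_num) (by norm_num) ?_ ?_ (by norm_num)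
      · rw [inn]; simp [Tet]; norm_num
      · rw [inn]; simp [Tet]; norm_num
      · rw [nsq, nsq]; simp [Tet]; norm_num
      · rw [nsq, nsq]; simp [Tet]; norm_num
    linarith
  · rw [(curv Tet).2.1, (curv Tet).2.2]
    have h1 : ∠ (Tet 0) (Tet 3) (Tet 1) < ∠ (Tet 2) (Tet 1) (Tet 3) := by
      unfold EuclideanGeometry.angle
      refine angle_lt_of (p := 81) (q := 64) (m₁ := 32761) (m₂ := 20996) ?_ ?_ (by norm_num)
        (by norm_num) (by norm_num) ?_ ?_ (by norm_num)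
      · rw [inn]; simp [Tet]; norm_num
      · rw [inn]; simp [Tet]; norm_num
      · rw [nsq, nsq]; simp [Tet]; norm_num
      · rw [nsq, nsq]; simp [Tet]; norm_num
    have h2 : ∠ (Tet 0) (Tet 3) (Tet 2) < ∠ (Tet 0) (Tet 1) (Tet 3) := by
      unfold EuclideanGeometry.angle
      refine angle_lt_of (p := 117) (q := 100) (m₁ := 30589) (m₂ := 36200) ?_ ?_ (by norm_num)
        (by norm_num) (by norm_num) ?_ ?_ (by norm_num)
      · rw [inn]; simp [Tet]; norm_num
      · rw [inn]; simp [Tet]; norm_num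
      · rw [nsq, nsq]; simp [Tet]; norm_num
      · rw [nsq, nsq]; simp [Tet]; norm_num
    have h3 : ∠ (Tet 1) (Tet 3) (Tet 2) < ∠ (Tet 0) (Tet 1) (Tet 2) := by
      unfold EuclideanGeometry.angle
      refine angle_lt_of (p := 117) (q := 100) (m₁ := 30589) (m₂ := 23200) ?_ ?_ (by norm_num)
        (by norm_num) (by norm_num) ?_ ?_ (by norm_num)
      · rw [inn]; simp [Tet]; norm_num
      · rw [inn]; simp [Tet]; norm_num
      · rw [nsq, nsq]; simp [Tet]; norm_num
      · rw [nsq, nsq]; simp [Tet]; norm_num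
    linarith

end Pool.Agent.Results.MP_ba4d4a_gt.LongestEdge
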